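import Pool.Agent.Helper67.BT.Stmts

/-! Module MAI of MP_10bc19_gt (helper97): reduction to the diagonal case. -/

open Finset MeasureTheory

namespace Pool.Agent.Helper67.BT

variable {n k : ℕ}

/-- the operator `∑ s_i v_i e_i ⊗ e_i` -/
noncomputable def mai_M (c : Cfg n k) (v : Fin n → ℝ) : E k →ₗ[ℝ] E k where
  toFun x := ∑ i, (c.s i * v i * inner ℝ (c.e i) x) • c.e i
  map_add' x y := by
    rw [← Finset.sum_add_distrib]
    refine Finset.sum_congr rfl fun i _ => ?_
    rw [inner_add_right, mul_add, add_smul]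
  map_smul' t x := by
    rw [Finset.smul_sum]
    refine Finset.sum_congr rfl fun i _ => ?_
    rw [inner_smul_right, smul_smul, RingHom.id_apply]
    congr 1; ring

theorem mai_inner (c : Cfg n k) (v : Fin n → ℝ) (x y : E k) :
    inner ℝ (mai_M c v x) y = ∑ i, c.s i * v i * inner ℝ (c.e i) x * inner ℝ (c.e i) y := by
  show inner ℝ (∑ i, (c.s i * v i * inner ℝ (c.e i) x) • c.e i) y = _
  rw [sum_inner]
  refine Finset.sum_congr rfl fun i _ => ?_
  rw [inner_smul_left]
  simp

theorem mai_symm (c : Cfg n k) (v : Fin n → ℝ) : (mai_M c v).IsSymmetric := by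
  intro x y
  rw [mai_inner, real_inner_comm, mai_inner]
  refine Finset.sum_congr rfl fun i _ => ?_
  ring

/-- the rotated configuration -/
noncomputable def mai_c (c : Cfg n k) (U : E k ≃ₗᵢ[ℝ] E k) : Cfg n k where
  s := c.s
  e i := U (c.e i)
  s0 := c.s0
  e1 i := by rw [U.norm_map, c.e1]
  iso x y := by
    have h : ∀ i z, inner ℝ (U (c.e i)) z = inner ℝ (c.e i) (U.symm z) := by
      intro i z
      rw [← U.inner_map_map (c.e i) (U.symm z), U.apply_symm_apply]
    simp only [h]
    rw [c.iso, U.symm.inner_map_map]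

theorem mai_z (c : Cfg n k) (U : E k ≃ₗᵢ[ℝ] E k) (i : Fin n) (x : E k) :
    (mai_c c U).z i (U x) = c.z i x := U.inner_map_map _ _

theorem mai_II (c : Cfg n k) (U : E k ≃ₗᵢ[ℝ] E k) (p : ℝ) (F : E k → ℝ) :
    II (mai_c c U) p F = II c p fun x => F (U x) := by
  unfold II
  rw [← U.measurePreserving.integral_comp U.toHomeomorph.measurableEmbedding]
  refine integral_congr_ae (Filter.Eventually.of_forall fun x => ?_)
  show F (U x) * Real.exp (-(V (mai_c c U) p (U x))) = F (U x) * Real.exp (-(V c p x))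
  congr 3
  unfold V
  refine Finset.sum_congr rfl fun i _ => ?_
  rw [mai_z]
  rfl

theorem mai_av (c : Cfg n k) (U : E k ≃ₗᵢ[ℝ] E k) (p : ℝ) (F : E k → ℝ) :
    av (mai_c c U) p F = av c p fun x => F (U x) := by
  unfold av
  rw [mai_II, mai_II]

theorem mai_XX (c : Cfg n k) (U : E k ≃ₗᵢ[ℝ] E k) (p : ℝ) (v : Fin n → ℝ) (x : E k) :
    XX (mai_c c U) p v (U x) = XX c p v x := by
  unfold XX
  refine Finset.sum_congr rfl fun i _ => ?_
  rw [mai_z]
  rfl

theorem st_MAI (h1 : ST_DIA) : ST_MAI := by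
  intro k
  obtain ⟨ε, hε, hε1, h⟩ := h1 k
  refine ⟨ε, hε, hε1, fun n c p v hp hp2 => ?_⟩
  have hM := mai_symm c v
  have hfr : Module.finrank ℝ (E k) = k := by simp
  set b := hM.eigenvectorBasis hfr with hb
  have hD : Dg (mai_c c b.repr) v (hM.eigenvalues hfr) := by
    intro l l'
    have h2 : ∀ i l, (mai_c c b.repr).e i l = inner ℝ (b l) (c.e i) := fun i l =>
      b.repr_apply_apply (c.e i) l
    have h3 : ∑ i, (mai_c c b.repr).s i * v i * (mai_c c b.repr).e i l * (mai_c c b.repr).e i l' =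
        inner ℝ (mai_M c v (b l)) (b l') := by
      rw [mai_inner]
      refine Finset.sum_congr rfl fun i _ => ?_
      rw [h2, h2, real_inner_comm (c.e i) (b l), real_inner_comm (c.e i) (b l')]
      rfl
    rw [h3, hb, hM.apply_eigenvectorBasis hfr l, inner_smul_left]
    have h4 := b.inner_eq_ite l l'
    rw [hb] at h4
    rw [h4]
    split_ifs <;> simp
  have h5 := h n (mai_c c b.repr) p v (hM.eigenvalues hfr) hp hp2 hD
  rw [mai_av, mai_av] at h5
  have h6 : ∀ i, av (mai_c c b.repr) p (fun x => |(mai_c c b.repr).z i x| ^ p) =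
      av c p fun x => |c.z i x| ^ p := by
    intro i
    rw [mai_av]
    simp only [mai_z]
  simp only [mai_XX, h6] at h5
  exact h5

end Pool.Agent.Helper67.BT
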