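import Pool.Agent.Helper67.BT.Stmts

/-! Module QB of MP_10bc19_gt (helper97): the bound for the form `q`. -/

open Finset MeasureTheory

namespace Pool.Agent.Helper67.BT

variable {n k : ℕ}

theorem qb_norm (x : E k) : ‖x‖ ^ 2 = ∑ l, x l ^ 2 := by
  rw [EuclideanSpace.real_norm_sq_eq]

theorem qb_pr (S : Finset (Fin k)) (x : E k) : ‖pr S x‖ ^ 2 = ∑ l ∈ S, x l ^ 2 := by
  rw [qb_norm]
  have h : ∀ l, (pr S x) l ^ 2 = if l ∈ S then x l ^ 2 else 0 := by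
    intro l
    show (if l ∈ S then x l else 0) ^ 2 = _
    split_ifs <;> simp
  simp only [h]
  rw [Finset.sum_ite_mem, Finset.univ_inter]

/-- the variance of `m` with respect to the weights `x_a^2` is at most the second moment -/
theorem qb_var (x m : Fin k → ℝ) (v : ℝ) (hx : ∑ a, x a ^ 2 = 1) :
    ∑ a, ∑ b, x a ^ 2 * x b ^ 2 * (m a - m b) ^ 2 ≤ 2 * ∑ a, (m a - v) ^ 2 * x a ^ 2 := by
  have h1 : ∀ a, ∑ b, x a ^ 2 * x b ^ 2 * (m a - m b) ^ 2 =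
      x a ^ 2 * (m a - v) ^ 2 - 2 * (x a ^ 2 * (m a - v)) * (∑ b, x b ^ 2 * (m b - v)) +
        x a ^ 2 * ∑ b, x b ^ 2 * (m b - v) ^ 2 := by
    intro a
    have h2 : x a ^ 2 * (m a - v) ^ 2 = ∑ b, x a ^ 2 * (m a - v) ^ 2 * x b ^ 2 := by
      rw [← Finset.mul_sum, hx, mul_one]
    rw [h2, Finset.mul_sum, Finset.mul_sum, ← Finset.sum_sub_distrib, ← Finset.sum_add_distrib]
    refine Finset.sum_congr rfl fun b _ => ?_
    ring
  rw [Finset.sum_congr rfl fun a _ => h1 a, Finset.sum_add_distrib, Finset.sum_sub_distrib,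
    ← Finset.sum_mul, ← Finset.sum_mul, ← Finset.mul_sum, hx]
  have h3 : ∑ a, x a ^ 2 * (m a - v) ^ 2 = ∑ a, (m a - v) ^ 2 * x a ^ 2 :=
    Finset.sum_congr rfl fun a _ => mul_comm _ _
  rw [h3]
  nlinarith [sq_nonneg (∑ a, x a ^ 2 * (m a - v))]

theorem qb_ff (c : Cfg n k) (v : Fin n → ℝ) (m : Fin k → ℝ) (i : Fin n) :
    ‖ff c v m i‖ ^ 2 = ∑ a, (m a - v i) ^ 2 * c.e i a ^ 2 := by
  rw [qb_norm]
  refine Finset.sum_congr rfl fun a _ => ?_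
  have h : ff c v m i a = m a * c.e i a - v i * c.e i a := rfl
  rw [h]
  ring

theorem qb_kap (c : Cfg n k) (v : Fin n → ℝ) (m : Fin k → ℝ) (S : Finset (Fin k)) (g : ℝ)
    (hg : 0 ≤ g) (h : ∀ a ∈ S, ∀ b, b ∉ S → g ≤ m a - m b) :
    kap c S * g ^ 2 ≤ ∑ i, c.s i * ‖ff c v m i‖ ^ 2 := by
  unfold kap
  rw [Finset.sum_mul]
  refine Finset.sum_le_sum fun i _ => ?_
  rw [mul_assoc, mul_assoc]
  refine mul_le_mul_of_nonneg_left ?_ (c.s0 i)
  rw [qb_pr, qb_pr, qb_ff]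
  have h1 := qb_var (c.e i) m (v i) (by rw [← qb_norm, c.e1]; norm_num)
  have h2 : (∑ l ∈ S, c.e i l ^ 2) * ((∑ l ∈ Sᶜ, c.e i l ^ 2) * g ^ 2) ≤
      ∑ a ∈ S, ∑ b ∈ Sᶜ, c.e i a ^ 2 * c.e i b ^ 2 * (m a - m b) ^ 2 := by
    rw [Finset.sum_mul]
    refine Finset.sum_le_sum fun a ha => ?_
    rw [Finset.sum_mul, Finset.mul_sum]
    refine Finset.sum_le_sum fun b hb => ?_
    rw [← mul_assoc]
    refine mul_le_mul_of_nonneg_left ?_ (by positivity)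
    have h3 := h a ha b (Finset.mem_compl.1 hb)
    exact pow_le_pow_left₀ hg h3 2
  have h4 : ∑ a, ∑ b, c.e i a ^ 2 * c.e i b ^ 2 * (m a - m b) ^ 2 =
      (∑ a ∈ S, ∑ b ∈ S, c.e i a ^ 2 * c.e i b ^ 2 * (m a - m b) ^ 2 +
      ∑ a ∈ S, ∑ b ∈ Sᶜ, c.e i a ^ 2 * c.e i b ^ 2 * (m a - m b) ^ 2) +
      (∑ a ∈ Sᶜ, ∑ b ∈ S, c.e i a ^ 2 * c.e i b ^ 2 * (m a - m b) ^ 2 +
      ∑ a ∈ Sᶜ, ∑ b ∈ Sᶜ, c.e i a ^ 2 * c.e i b ^ 2 * (m a - m b) ^ 2) := by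
    rw [← Finset.sum_add_distrib, ← Finset.sum_add_distrib, ← Finset.sum_add_sum_compl S]
    congr 1
    · refine Finset.sum_congr rfl fun a _ => ?_
      rw [Finset.sum_add_sum_compl]
    · refine Finset.sum_congr rfl fun a _ => ?_
      rw [Finset.sum_add_sum_compl]
  have h5 : ∑ a ∈ Sᶜ, ∑ b ∈ S, c.e i a ^ 2 * c.e i b ^ 2 * (m a - m b) ^ 2 =
      ∑ a ∈ S, ∑ b ∈ Sᶜ, c.e i a ^ 2 * c.e i b ^ 2 * (m a - m b) ^ 2 := by
    rw [Finset.sum_comm]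
    refine Finset.sum_congr rfl fun a _ => Finset.sum_congr rfl fun b _ => ?_
    ring
  have h6 : 0 ≤ ∑ a ∈ S, ∑ b ∈ S, c.e i a ^ 2 * c.e i b ^ 2 * (m a - m b) ^ 2 :=
    Finset.sum_nonneg fun a _ => Finset.sum_nonneg fun b _ => by positivity
  have h7 : 0 ≤ ∑ a ∈ Sᶜ, ∑ b ∈ Sᶜ, c.e i a ^ 2 * c.e i b ^ 2 * (m a - m b) ^ 2 :=
    Finset.sum_nonneg fun a _ => Finset.sum_nonneg fun b _ => by positivity
  linarith

theorem qb_Qsymm (c : Cfg n k) (p : ℝ) (l l' : Fin k) : Q c p l l' = Q c p l' l := by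
  unfold Q
  congr 1
  refine Finset.sum_congr rfl fun i _ => ?_
  rw [mul_right_comm (c.s i)]
  congr 2
  funext x
  rw [mul_comm (x l)]

theorem st_QB (h1 : ST_CUT) (h2 : ST_GAP) (h3 : ST_QID) : ST_QB := by
  intro k
  obtain ⟨K, hK, hcut⟩ := h1 k
  refine ⟨K * (k : ℝ) ^ 4 + 1, by nlinarith [pow_nonneg (Nat.cast_nonneg (α := ℝ) k) 4], ?_⟩
  intro n c p v m hp hp3
  set F : ℝ := ∑ i, c.s i * ‖ff c v m i‖ ^ 2 with hF
  have hF0 : 0 ≤ F := Finset.sum_nonneg fun i _ => mul_nonneg (c.s0 i) (sq_nonneg _)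
  have hmain : ∀ l l', m l' < m l → |Q c p l l' * (m l - m l') ^ 2| ≤ K * (p - 2) * k ^ 2 * F := by
    intro l l' hll
    obtain ⟨S, hl, hl', hS⟩ := h2 k m l l' hll
    have hk : (0 : ℝ) < k := by
      have : 0 < k := Fin.pos l
      exact_mod_cast this
    have h4 := qb_kap c v m S ((m l - m l') / k) (div_nonneg (by linarith) hk.le) hS
    have h5 := hcut n c p S l l' hp hp3 hl hl'
    rw [abs_mul, abs_of_nonneg (sq_nonneg (m l - m l'))]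
    have h6 : (m l - m l') ^ 2 = ((m l - m l') / k) ^ 2 * k ^ 2 := by
      rw [div_pow, div_mul_cancel₀]; positivity
    have hKp : 0 ≤ K * (p - 2) := mul_nonneg (by linarith) (by linarith)
    calc |Q c p l l'| * (m l - m l') ^ 2 ≤ K * (p - 2) * kap c S * (m l - m l') ^ 2 :=
          mul_le_mul_of_nonneg_right h5 (sq_nonneg _)
      _ = K * (p - 2) * k ^ 2 * (kap c S * ((m l - m l') / k) ^ 2) := by rw [h6]; ring
      _ ≤ K * (p - 2) * k ^ 2 * F := mul_le_mul_of_nonneg_left h4 (by positivity)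
  have hall : ∀ l l', |Q c p l l' * (m l - m l') ^ 2| ≤ K * (p - 2) * k ^ 2 * F := by
    intro l l'
    rcases lt_trichotomy (m l) (m l') with h | h | h
    · rw [qb_Qsymm]
      have h4 : (m l - m l') ^ 2 = (m l' - m l) ^ 2 := by ring
      rw [h4]
      exact hmain l' l h
    · rw [h, sub_self]
      simp only [ne_eq, OfNat.ofNat_ne_zero, not_false_eq_true, zero_pow, mul_zero, abs_zero]
      have hKp : 0 ≤ K * (p - 2) := mul_nonneg (by linarith) (by linarith)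
      positivity
    · exact hmain l l' h
  rw [h3 n k c p m hp hp3, abs_div]
  have h4 : |∑ l, ∑ l', Q c p l l' * (m l - m l') ^ 2| ≤ k * (k * (K * (p - 2) * k ^ 2 * F)) := by
    refine (Finset.abs_sum_le_sum_abs _ _).trans ?_
    refine (Finset.sum_le_sum fun l _ => (Finset.abs_sum_le_sum_abs _ _).trans
      (Finset.sum_le_sum fun l' _ => hall l l')).trans ?_
    simp
  have hp2 : 0 ≤ p - 2 := by linarith
  have h5 : |(2 : ℝ)| = 2 := abs_of_pos (by norm_num)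
  rw [h5]
  have h6 : 0 ≤ (p - 2) * F := mul_nonneg hp2 hF0
  have h7 : 0 ≤ K * (k : ℝ) ^ 4 * ((p - 2) * F) := by positivity
  calc |∑ l, ∑ l', Q c p l l' * (m l - m l') ^ 2| / 2
      ≤ k * (k * (K * (p - 2) * k ^ 2 * F)) / 2 := by linarith
    _ = K * (k : ℝ) ^ 4 * ((p - 2) * F) / 2 := by ring
    _ ≤ (K * (k : ℝ) ^ 4 + 1) * (p - 2) * F := by nlinarith

end Pool.Agent.Helper67.BT
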