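import Pool.Agent.Helper67.BT.Stmts

/-! Module LWA of MP_10bc19_gt (helper97): the maximum of the determinant. -/

open Finset MeasureTheory

namespace Pool.Agent.Helper67.BT

variable {n k : ℕ}

theorem lwa_zero (a : Fin n → E k) (hS : Sp a) (T : E k →ₗ[ℝ] E k) (h : ∀ i, T (a i) = 0) :
    T = 0 := by
  have h1 : LinearMap.adjoint T = 0 := by
    ext1 y
    refine hS _ fun i => ?_
    rw [LinearMap.adjoint_inner_right, h i, inner_zero_left]
  have h2 : LinearMap.adjoint (LinearMap.adjoint T) = 0 := by rw [h1, map_zero]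
  rwa [LinearMap.adjoint_adjoint] at h2

/-- the functional -/
noncomputable def lwa_N (p : ℝ) (a : Fin n → E k) (T : E k →ₗ[ℝ] E k) : ℝ :=
  ∑ i, ‖T (a i)‖ ^ p

theorem lwa_smul (p : ℝ) (a : Fin n → E k) (T : E k →ₗ[ℝ] E k) (t : ℝ) (ht : 0 ≤ t) :
    lwa_N p a (t • T) = t ^ p * lwa_N p a T := by
  unfold lwa_N
  rw [Finset.mul_sum]
  refine Finset.sum_congr rfl fun i _ => ?_
  rw [LinearMap.smul_apply, norm_smul, Real.norm_of_nonneg ht, Real.mul_rpow ht (norm_nonneg _)]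

theorem lwa_det (T : E k →ₗ[ℝ] E k) (t : ℝ) (ht : 0 ≤ t) :
    |LinearMap.det (t • T)| = t ^ k * |LinearMap.det T| := by
  rw [LinearMap.det_smul, abs_mul, abs_of_nonneg (pow_nonneg ht _)]
  simp

theorem lwa_N0 {p : ℝ} (hp : 1 ≤ p) (a : Fin n → E k) (hS : Sp a) (T : E k →ₗ[ℝ] E k)
    (h : lwa_N p a T = 0) : T = 0 := by
  refine lwa_zero a hS T fun i => ?_
  have h1 := (Finset.sum_eq_zero_iff_of_nonneg (fun i _ =>
    Real.rpow_nonneg (norm_nonneg (T (a i))) p)).1 h i (Finset.mem_univ i)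
  have h2 := (Real.rpow_eq_zero (norm_nonneg _) (by linarith : p ≠ 0)).1 h1
  exact norm_eq_zero.1 h2

theorem lwa_root {p : ℝ} (hp : 1 ≤ p) {x : ℝ} (hx : 0 ≤ x) : (x ^ (1 / p)) ^ p = x := by
  rw [← Real.rpow_mul hx, one_div, inv_mul_cancel₀ (by linarith), Real.rpow_one]

theorem st_LWA : ST_LWA := by
  intro n k p a hk hp hS
  have hk1 : (1 : ℝ) ≤ k := by exact_mod_cast hk
  have hk0 : (0 : ℝ) < k := by linarith
  have hp0 : 0 < p := by linarith
  have hNn : ∀ T : E k →ₗ[ℝ] E k, 0 ≤ lwa_N p a T := fun T =>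
    Finset.sum_nonneg fun i _ => Real.rpow_nonneg (norm_nonneg _) _
  -- the compact set
  let K : Set (E k →L[ℝ] E k) := {T | lwa_N p a (T : E k →ₗ[ℝ] E k) ≤ k}
  have hNc : Continuous fun T : E k →L[ℝ] E k => lwa_N p a (T : E k →ₗ[ℝ] E k) := by
    unfold lwa_N
    refine continuous_finsetSum _ fun i _ => ?_
    refine Continuous.rpow_const ?_ fun _ => Or.inr hp0.le
    have : Continuous fun T : E k →L[ℝ] E k => T (a i) := by fun_prop
    exact this.norm
  have hKc : IsClosed K := isClosed_le hNc continuous_const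
  let Φ : (E k →L[ℝ] E k) →ₗ[ℝ] (Fin n → E k) :=
    { toFun := fun T i => T (a i)
      map_add' := fun S T => by funext i; rfl
      map_smul' := fun t T => by funext i; rfl }
  have hΦ : LinearMap.ker Φ = ⊥ := by
    rw [LinearMap.ker_eq_bot']
    intro T hT
    have h1 : (T : E k →ₗ[ℝ] E k) = 0 := lwa_zero a hS _ fun i => congrFun hT i
    ext1 x
    exact congrArg (fun L : E k →ₗ[ℝ] E k => L x) h1
  obtain ⟨C, -, hC⟩ := Φ.exists_antilipschitzWith hΦ
  have hKb : Bornology.IsBounded K := by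
    rw [isBounded_iff_forall_norm_le]
    refine ⟨C * k, fun T hT => ?_⟩
    have h1 : ‖Φ T‖ ≤ k := by
      rw [pi_norm_le_iff_of_nonneg hk0.le]
      intro i
      by_contra hc
      push Not at hc
      have h2 : ‖T (a i)‖ ≤ ‖T (a i)‖ ^ p := by
        have h3 : (1 : ℝ) ≤ ‖T (a i)‖ := by
          have : (k : ℝ) < ‖T (a i)‖ := hc
          linarith
        calc ‖T (a i)‖ = ‖T (a i)‖ ^ (1 : ℝ) := (Real.rpow_one _).symm
          _ ≤ _ := Real.rpow_le_rpow_of_exponent_le h3 hp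
      have h3 : ‖T (a i)‖ ^ p ≤ lwa_N p a (T : E k →ₗ[ℝ] E k) :=
        Finset.single_le_sum (f := fun i => ‖T (a i)‖ ^ p)
          (fun j _ => Real.rpow_nonneg (norm_nonneg _) _) (Finset.mem_univ i)
      have h4 : (k : ℝ) < ‖T (a i)‖ := hc
      have h5 : lwa_N p a (T : E k →ₗ[ℝ] E k) ≤ k := hT
      linarith
    have h2 := hC.le_mul_dist T 0
    rw [dist_zero_right, map_zero, dist_zero_right] at h2
    exact h2.trans (mul_le_mul_of_nonneg_left h1 C.coe_nonneg)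
  have hKcomp : IsCompact K := Metric.isCompact_of_isClosed_isBounded hKc hKb
  -- a small multiple of the identity
  set s : ℝ := lwa_N p a (LinearMap.id : E k →ₗ[ℝ] E k) with hs
  have hs0 : 0 ≤ s := hNn _
  set t₀ : ℝ := 1 / (1 + s) with ht₀
  have ht₀0 : 0 < t₀ := by positivity
  have ht₀1 : t₀ ≤ 1 := by rw [ht₀, div_le_one (by linarith)]; linarith
  have ht₀K : t₀ • (ContinuousLinearMap.id ℝ (E k)) ∈ K := by
    show lwa_N p a (t₀ • (LinearMap.id : E k →ₗ[ℝ] E k)) ≤ k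
    rw [lwa_smul _ _ _ _ ht₀0.le, ← hs]
    have h1 : t₀ ^ p ≤ t₀ := by
      calc t₀ ^ p ≤ t₀ ^ (1 : ℝ) := Real.rpow_le_rpow_of_exponent_ge ht₀0 ht₀1 hp
        _ = t₀ := Real.rpow_one _
    have h2 : t₀ * s ≤ 1 := by
      rw [ht₀, div_mul_eq_mul_div, one_mul, div_le_one (by linarith)]; linarith
    calc t₀ ^ p * s ≤ t₀ * s := mul_le_mul_of_nonneg_right h1 hs0
      _ ≤ k := by linarith
  obtain ⟨T₀, hT₀K, hT₀⟩ := hKcomp.exists_isMaxOn ⟨_, ht₀K⟩
    ((ContinuousLinearMap.continuous_det (𝕜 := ℝ) (E := E k)).abs.continuousOn (s := K))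
  have hmax : ∀ T : E k →ₗ[ℝ] E k, lwa_N p a T ≤ k →
      |LinearMap.det T| ≤ |LinearMap.det (T₀ : E k →ₗ[ℝ] E k)| := by
    intro T hT
    have h1 : LinearMap.toContinuousLinearMap T ∈ K := hT
    have h2 := hT₀ h1
    exact h2
  have hdet : LinearMap.det (T₀ : E k →ₗ[ℝ] E k) ≠ 0 := by
    have h1 := hmax (t₀ • (LinearMap.id : E k →ₗ[ℝ] E k)) ht₀K
    rw [lwa_det _ _ ht₀0.le, LinearMap.det_id, abs_one, mul_one] at h1
    have h2 : 0 < t₀ ^ k := pow_pos ht₀0 _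
    intro h3
    rw [h3, abs_zero] at h1
    linarith
  have hdetzero : LinearMap.det (0 : E k →ₗ[ℝ] E k) = 0 := by
    rw [LinearMap.det_zero, finrank_euclideanSpace_fin]
    exact zero_pow hk.ne'
  have hscale : ∀ T : E k →ₗ[ℝ] E k, 0 < lwa_N p a T →
      (k / lwa_N p a T) ^ k * |LinearMap.det T| ^ p ≤
        |LinearMap.det (T₀ : E k →ₗ[ℝ] E k)| ^ p := by
    intro T hT
    set t : ℝ := (k / lwa_N p a T) ^ (1 / p) with ht
    have ht0 : 0 ≤ t := Real.rpow_nonneg (by positivity) _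
    have h1 : t ^ p = k / lwa_N p a T := lwa_root hp (by positivity)
    have h2 : lwa_N p a (t • T) = k := by
      rw [lwa_smul _ _ _ _ ht0, h1, div_mul_cancel₀ _ hT.ne']
    have h3 := hmax (t • T) h2.le
    rw [lwa_det _ _ ht0] at h3
    have h4 := Real.rpow_le_rpow (by positivity) h3 hp0.le
    rw [Real.mul_rpow (by positivity) (abs_nonneg _)] at h4
    have h5 : (t ^ k) ^ p = (k / lwa_N p a T) ^ k := by
      rw [← h1, ← Real.rpow_natCast, ← Real.rpow_natCast, ← Real.rpow_mul ht0,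
        ← Real.rpow_mul ht0, mul_comm]
    rwa [h5] at h4
  have hN₀ : lwa_N p a (T₀ : E k →ₗ[ℝ] E k) = k := by
    have h1 : lwa_N p a (T₀ : E k →ₗ[ℝ] E k) ≤ k := hT₀K
    rcases eq_or_lt_of_le h1 with h2 | h2
    · exact h2
    · exfalso
      have h3 : 0 < lwa_N p a (T₀ : E k →ₗ[ℝ] E k) := by
        rcases eq_or_lt_of_le (hNn (T₀ : E k →ₗ[ℝ] E k)) with h | h
        · exact absurd (by rw [lwa_N0 hp a hS _ h.symm]; exact hdetzero) hdet
        · exact h
      have h4 := hscale _ h3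
      have h5 : 1 < k / lwa_N p a (T₀ : E k →ₗ[ℝ] E k) := by rw [one_lt_div h3]; exact h2
      have h6 : 1 < (k / lwa_N p a (T₀ : E k →ₗ[ℝ] E k)) ^ k := one_lt_pow₀ h5 hk.ne'
      have h7 : 0 < |LinearMap.det (T₀ : E k →ₗ[ℝ] E k)| ^ p :=
        Real.rpow_pos_of_pos (abs_pos.2 hdet) _
      nlinarith
  refine ⟨(T₀ : E k →ₗ[ℝ] E k), hdet, hN₀, fun T' => ?_⟩
  change |LinearMap.det T'| ^ p * (k : ℝ) ^ k ≤
    |LinearMap.det (T₀ : E k →ₗ[ℝ] E k)| ^ p * (lwa_N p a T') ^ k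
  rcases eq_or_lt_of_le (hNn T') with h | h
  · rw [lwa_N0 hp a hS _ h.symm, hdetzero, abs_zero, Real.zero_rpow hp0.ne', zero_mul]
    exact mul_nonneg (Real.rpow_nonneg (abs_nonneg _) _) (pow_nonneg (hNn _) _)
  · have h1 := hscale T' h
    rw [div_pow, div_mul_eq_mul_div, div_le_iff₀ (pow_pos h _)] at h1
    linarith

end Pool.Agent.Helper67.BT
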